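import Mathlib

/-!
# Connected surfaces generated by varisolvent functions on a finite set are not closed

Let `M` be the largest degree.  Two points of the surface `G` one of which has degree less than `M`
agree at less than `M - 1` points of `Q`.  The points of degree `M` form an open subset of `G`, so, if
`G` is connected, some point `x₀` of `G` of smaller degree is a limit of points `w` of degree `M`.  Fix
`M - 1` points of `Q` and suppose that `G` is closed.  On the part of `G` that agrees with `w` at these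
points all points have degree `M`, and there is no local maximum of the value at a further point of
`Q`; so this part leaves the unit ball about `x₀`, and a limit of its points on the unit sphere is a
point of `G` that agrees with `x₀` at `M - 1` points, a contradiction.
-/

set_option autoImplicit false

namespace Pool.Agent.Results.MP_850d3d_an.NotClosed

open Set Metric

universe u v

/-- `g` is locally solvent of degree `m` at `α₀`: for distinct points `t 1, ..., t m` and `ε > 0`
there is `δ > 0` such that all values `γ i` with `|g α₀ (t i) - γ i| < δ` are interpolated at the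
points `t i` by some `g α` that differs from `g α₀` by less than `ε` on `Q`. -/
def LocallySolvent {Q : Type u} {𝒜 : Type v} (g : 𝒜 → Q → ℝ) (m : ℕ) (α₀ : 𝒜) : Prop :=
  ∀ t : Fin m → Q, Function.Injective t → ∀ ε > 0, ∃ δ > 0, ∀ γ : Fin m → ℝ,
    (∀ i, |g α₀ (t i) - γ i| < δ) →
      ∃ α, (∀ i, g α (t i) = γ i) ∧ ∀ q, |g α q - g α₀ q| < ε

/-- `g` is varisolvent on the finite set `Q`: there is a non-constant function `p` on the parameter
set with values in `{1, ..., |Q|}` such that `g` is locally solvent of degree `p α₀` at each `α₀` and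
`g α₀ - g α` has at most `p α₀ - 1` zeros on `Q` for all `α ≠ α₀`. -/
def Varisolvent {Q : Type u} [Fintype Q] {𝒜 : Type v} (g : 𝒜 → Q → ℝ) : Prop :=
  ∃ p : 𝒜 → ℕ, (∀ α, 1 ≤ p α ∧ p α ≤ Fintype.card Q) ∧ (∃ α β, p α ≠ p β) ∧
    (∀ α₀, LocallySolvent g (p α₀) α₀) ∧
    ∀ α₀ α, α ≠ α₀ → {q | g α₀ q - g α q = 0}.ncard ≤ p α₀ - 1

/-- A connected surface generated by a varisolvent function on a finite set is not closed.  The
parameter set may be any set; no continuity in the parameter is used. -/
theorem result {Q : Type u} [Fintype Q] {𝒜 : Type v} (g : 𝒜 → Q → ℝ) (h : Varisolvent g)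
    (hc : IsConnected (range g)) : ¬ IsClosed (range g) := by
  classical
  obtain ⟨p, hp, ⟨α₁, β₁, hne⟩, hs, hz⟩ := h
  intro hcl
  have hb : BddAbove (range p) := ⟨Fintype.card Q, by rintro _ ⟨α, rfl⟩; exact (hp α).2⟩
  obtain ⟨a, ha'⟩ := Nat.sSup_mem ⟨p α₁, mem_range_self α₁⟩ hb
  have ha : ∀ α, p α ≤ p a := fun α => ha' ▸ le_csSup hb (mem_range_self α)
  obtain ⟨m, hm⟩ : ∃ m, p a = m + 1 := ⟨p a - 1, by have := hp a; omega⟩
  have hle : ∀ α, p α ≤ m + 1 := fun α => hm ▸ ha α
  have hm1 : 1 ≤ m := by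
    have h1 := hle α₁
    have h2 := hle β₁
    have h3 := hp α₁
    have h4 := hp β₁
    omega
  obtain ⟨t⟩ : Nonempty (Fin (m + 1) ↪ Q) := by
    refine Function.Embedding.nonempty_of_card_le ?_
    rw [Fintype.card_fin, ← hm]
    exact (hp a).2
  -- two points that agree at `m` points have degree `m + 1`
  have key : ∀ α β, β ≠ α → (∀ i : Fin m, g β (t i.castSucc) = g α (t i.castSucc)) →
      p α = m + 1 := by
    intro α β hαβ hag
    have h1 := hz α β hαβ
    have h2 : (range fun i : Fin m => t i.castSucc) ⊆ {q | g α q - g β q = 0} := by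
      rintro _ ⟨i, rfl⟩
      exact sub_eq_zero.2 (hag i).symm
    have h3 := Set.ncard_le_ncard h2 (Set.toFinite _)
    have hinj : Function.Injective fun i : Fin m => t i.castSucc :=
      t.injective.comp (Fin.castSucc_injective m)
    rw [← Set.image_univ, Set.ncard_image_of_injective _ hinj, Set.ncard_univ, Nat.card_eq_fintype_card,
      Fintype.card_fin] at h3
    have h4 := hp α
    have h5 := hle α
    omega
  -- moving the value at the last point
  have move : ∀ α, p α = m + 1 → ∀ ε > 0, ∃ δ > 0, ∀ β, dist (g β) (g α) < δ →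
      ∃ γ, (∀ i : Fin m, g γ (t i.castSucc) = g β (t i.castSucc)) ∧
        g β (t (Fin.last m)) < g γ (t (Fin.last m)) ∧ dist (g γ) (g α) < ε := by
    intro α hα ε hε
    have hsα := hs α
    rw [hα] at hsα
    obtain ⟨δ, hδ, H⟩ := hsα t t.injective ε hε
    refine ⟨δ / 2, half_pos hδ, fun β hβ => ?_⟩
    obtain ⟨γ, h1, h2⟩ := H (fun i => if i = Fin.last m then g β (t i) + δ / 2 else g β (t i)) (by
      intro i
      have h3 : |g β (t i) - g α (t i)| < δ / 2 := by
        rw [← Real.dist_eq]
        exact (dist_le_pi_dist (g β) (g α) (t i)).trans_lt hβ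
      rw [abs_lt] at h3 ⊢
      split_ifs
      · constructor <;> linarith [h3.1, h3.2]
      · constructor <;> linarith [h3.1, h3.2])
    refine ⟨γ, fun i => ?_, ?_, ?_⟩
    · rw [h1, if_neg (Fin.castSucc_lt_last i).ne]
    · rw [h1, if_pos rfl]
      linarith
    · rw [dist_pi_lt_iff hε]
      intro q
      rw [Real.dist_eq]
      exact h2 q
  -- the points of degree `m + 1` form an open set
  have hopen : ∀ α, p α = m + 1 → ∃ ε > 0, ∀ β, dist (g β) (g α) < ε → p β = m + 1 := by
    intro α hα
    obtain ⟨δ, hδ, H⟩ := move α hα 1 one_pos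
    refine ⟨δ, hδ, fun β hβ => ?_⟩
    obtain ⟨γ, h1, h2, -⟩ := H β hβ
    refine key β γ ?_ h1
    rintro rfl
    exact lt_irrefl _ h2
  have hx : ∃ β, p β ≠ m + 1 ∧ g β ∈ closure {x | ∃ α, g α = x ∧ p α = m + 1} := by
    by_contra hno
    push Not at hno
    choose! ε hε hεp using hopen
    have hU : IsOpen (⋃ α ∈ {α | p α = m + 1}, ball (g α) (ε α)) :=
      isOpen_biUnion fun _ _ => isOpen_ball
    obtain ⟨b, hbne⟩ : ∃ b, p b ≠ m + 1 := by
      by_contra hall
      push Not at hall
      exact hne ((hall α₁).trans (hall β₁).symm)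
    obtain ⟨x, ⟨β, rfl⟩, hxU, hxV⟩ := hc.isPreconnected _ _ hU isClosed_closure.isOpen_compl
      (by
        rintro _ ⟨β, rfl⟩
        by_cases hβ : p β = m + 1
        · left
          exact mem_iUnion₂.2 ⟨β, hβ, mem_ball_self (hε β hβ)⟩
        · right
          exact hno β hβ)
      ⟨g a, mem_range_self a, mem_iUnion₂.2 ⟨a, hm, mem_ball_self (hε a hm)⟩⟩
      ⟨g b, mem_range_self b, hno b hbne⟩
    obtain ⟨α, hα, hβ⟩ := mem_iUnion₂.1 hxU
    exact hxV (subset_closure ⟨β, rfl, hεp α hα β hβ⟩)
  obtain ⟨β₀, hβ₀, hcl₀⟩ := hx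
  -- slices leave the unit ball
  have slice : ∀ α, p α = m + 1 → dist (g α) (g β₀) < 1 → ∃ z ∈ range g ∩ sphere (g β₀) 1,
      ∀ i : Fin m, z (t i.castSucc) = g α (t i.castSucc) := by
    intro α hα hd
    by_contra hno
    push Not at hno
    have hcomp : IsCompact ((closedBall (g β₀) 1 ∩ range g) ∩
        {z : Q → ℝ | ∀ i : Fin m, z (t i.castSucc) = g α (t i.castSucc)}) := by
      refine ((isCompact_closedBall _ _).inter_right hcl).inter_right ?_
      simp only [Set.ofPred_forall]
      exact isClosed_iInter fun i => isClosed_eq (continuous_apply _) continuous_const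
    obtain ⟨z, ⟨⟨hz1, β, rfl⟩, hz3⟩, hmax⟩ := hcomp.exists_isMaxOn
      ⟨g α, ⟨⟨mem_closedBall.2 hd.le, mem_range_self α⟩, fun _ => rfl⟩⟩
      (continuous_apply (t (Fin.last m))).continuousOn
    have hlt : dist (g β) (g β₀) < 1 := by
      refine lt_of_le_of_ne (mem_closedBall.1 hz1) fun heq => ?_
      obtain ⟨i, hi⟩ := hno (g β) ⟨mem_range_self β, mem_sphere.2 heq⟩
      exact hi (hz3 i)
    have hβ : p β = m + 1 := by
      by_cases hαβ : α = β
      · rw [← hαβ]; exact hα
      · exact key β α hαβ fun i => (hz3 i).symm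
    obtain ⟨δ, hδ, H⟩ := move β hβ (1 - dist (g β) (g β₀)) (by linarith)
    obtain ⟨γ, h1, h2, h3⟩ := H β (by rw [dist_self]; exact hδ)
    have hin : g γ ∈ (closedBall (g β₀) 1 ∩ range g) ∩
        {z : Q → ℝ | ∀ i : Fin m, z (t i.castSucc) = g α (t i.castSucc)} := by
      refine ⟨⟨mem_closedBall.2 ?_, mem_range_self γ⟩, fun i => (h1 i).trans (hz3 i)⟩
      linarith [dist_triangle (g γ) (g β) (g β₀)]
    exact not_lt.2 (hmax hin) h2
  -- conclusion
  have hK : IsCompact (range g ∩ sphere (g β₀) 1) := (isCompact_sphere _ _).inter_left hcl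
  let F : (Q → ℝ) → ℝ := fun z => ∑ i : Fin m, |z (t i.castSucc) - g β₀ (t i.castSucc)|
  have hF : Continuous F := by
    refine continuous_finsetSum _ fun i _ => ?_
    exact ((continuous_apply _).sub continuous_const).abs
  have hclose : ∀ η > 0, ∃ α, p α = m + 1 ∧ dist (g α) (g β₀) < η := by
    intro η hη
    obtain ⟨_, ⟨α, rfl, hα⟩, hd⟩ := Metric.mem_closure_iff.1 hcl₀ η hη
    exact ⟨α, hα, by rw [dist_comm]; exact hd⟩
  obtain ⟨α₂, hα₂, hd₂⟩ := hclose 1 one_pos
  obtain ⟨z₂, hz₂, -⟩ := slice α₂ hα₂ hd₂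
  obtain ⟨z, hzK, hmin⟩ := hK.exists_isMinOn ⟨z₂, hz₂⟩ hF.continuousOn
  have hpos : 0 < F z := by
    refine lt_of_le_of_ne (Finset.sum_nonneg fun i _ => abs_nonneg _) fun h0 => ?_
    have h1 := (Finset.sum_eq_zero_iff_of_nonneg fun i _ => abs_nonneg _).1 h0.symm
    obtain ⟨⟨β, rfl⟩, hzs⟩ := hzK
    refine hβ₀ (key β₀ β ?_ fun i => ?_)
    · rintro rfl
      rw [mem_sphere, dist_self] at hzs
      exact zero_ne_one hzs
    · have := h1 i (Finset.mem_univ i)
      rw [abs_eq_zero, sub_eq_zero] at this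
      exact this
  obtain ⟨α, hα, hd⟩ := hclose (min 1 (F z / (m + 1))) (by positivity)
  obtain ⟨w, hw, hwt⟩ := slice α hα (hd.trans_le (min_le_left _ _))
  have h1 : F z ≤ F w := hmin hw
  have h2 : F w ≤ m * dist (g α) (g β₀) := by
    have h3 : F w ≤ ∑ _i : Fin m, dist (g α) (g β₀) := by
      refine Finset.sum_le_sum fun i _ => ?_
      rw [hwt i, ← Real.dist_eq]
      exact dist_le_pi_dist (g α) (g β₀) _
    simpa using h3
  have h4 : dist (g α) (g β₀) < F z / (m + 1) := hd.trans_le (min_le_right _ _)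
  rw [lt_div_iff₀ (by positivity)] at h4
  have h5 : 0 ≤ dist (g α) (g β₀) := dist_nonneg
  nlinarith

end Pool.Agent.Results.MP_850d3d_an.NotClosed
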